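import Pool.Agent.Helper891_XS.Uq
import Pool.Agent.Y682.XF.Uniq
import Pool.Agent.Y688.XD.Hecke
import Pool.Agent.Y461.XD.Apev
import Pool.Agent.Y758.XD.NZ
import Pool.Agent.Y109.XF.LF
import Pool.Agent.Y954.XF.LKD
import Pool.Agent.Y682.XF.Trd
import Pool.Agent.Y812.XF.HtKd
import Pool.Agent.Y44.XF.Prim
import Pool.Agent.Y44.XF.Mind
import Pool.Agent.Y641.XF.Tam
import Pool.Agent.Y813.XF.TamD
import Pool.Agent.Y665.XF.Tord
import Pool.Agent.Y614.XF.Perd
import Pool.Agent.Y532.XF.Ch
import Pool.Agent.Y686.XF.Reg
import Pool.Agent.Y514.XF.Qval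
import Pool.Agent.Y31.XF.Inz
import Pool.Agent.Y697.XF.Regu

/-!
# The 2-part of the Birch and Swinnerton-Dyer conjecture in towers, for all the quadratic twists of
# `X_0(14)` prime to `42`, in any rank

`E_D` is the quadratic twist by `D` of the modular curve `X_0(14)`, where `D = 1` modulo `4` is
squarefree, positive or negative.  `F ⊆ K` are fields of odd degree, contained in the cyclotomic field
`C` of the `q`-th roots of unity, `q` a power of a prime, and `2` and `7` are inert in `K` and the narrow
class number of `K` is odd; this is proved for `q = 3^n`, where `F ⊆ K` are any layers of the cyclotomic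
`ℤ₃`-extension of `ℚ`.  For the primes `p ∣ D` we suppose that `Gal(K/F)` consists of powers of the
Frobenius automorphism at `p`, that is, that the primes of `F` above `p` are inert in `K`; the primes
`p ∣ D` may split in `F`.  For `q = 3^n` and `p ≠ 3` this holds if `p² - 1` is not divisible by
`9 [F:ℚ]`.  So for every `D` prime to `42` it holds for all the layers `F ⊆ K` of the `ℤ₃`-extension
if the degree of `F` is large enough: the conjecture for `E_D` over one explicit layer is equivalent to
the conjecture over every higher layer.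

We compare `E_D` over `K` with `E_D` over `F`, for every such `D` and without any assumption on the rank
or the Tate-Shafarevich group: the order of vanishing of the `L`-function at `1`, the rank and the
2-primary part of the Tate-Shafarevich group do not change, and the analytic order of the
Tate-Shafarevich group (leading coefficient, discriminant, regulator, period, Tamagawa numbers,
torsion) changes by a 2-adic unit.  So the 2-part of the conjecture of Birch and Swinnerton-Dyer holds
for `E_D` over `K` if and only if it holds over `F`.  The case `F = ℚ`, where the prime divisors of `D`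
are inert in `K`, is treated in the file `AllTwistsOddDegree`.

The proof.  Algebraic side: an automorphism `γ` in `Gal(K/F)` preserves the bad places of `K`, and then
`b γ(b)` is a square for all the elements `b` of `K^×` that satisfy the local conditions of the descent
with the isogenies of degree two; so `γ` acts trivially on the descent classes over `K`, and by induction
on the 2-primary part of `Ш(E_D/K)`, and the restriction from `F` to `K` has an inverse on the 2-primary
parts, given by the corestriction divided by the odd degree.  In the same way `E_D(K) = E_D(F) + 2 E_D(K)`.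
Analytic side: the characters `χ` of `Gal(K/ℚ)` that are not trivial on `Gal(K/F)` satisfy `χ(p) ≠ 1` for
the primes `p ∣ D`, and the Euler factors at these primes that relate the sums of modular symbols for
`E_D` and for `X_0(14)` are units at 2, so that the product of the values `L(E_D, χ, 1)` over these
characters is a 2-adic unit times the power of the period.  The discriminants of `F` and `K` are odd
squares, the places of `F` and `K` above the prime divisors of `D` correspond to each other, and the
canonical height of a point over `F`, relative to `K`, is multiplied by the odd degree.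
-/

set_option autoImplicit false

open NumberField NumberField.InfinitePlace IsDedekindDomain WeierstrassCurve MeasureTheory Filter
  Topology

namespace Pool.Agent.Results.MP_f50388_nt.TwistsInTowers

open scoped Classical

open Pool.Agent.TH841.NF.D (Sha)

open Pool.Agent.Y682 (NCl)

/-- The quadratic twist `E_D` of `X_0(14)` (`D = 1` modulo `4`), with its global minimal equation
`y² + x y + y = x³ + ((D - 1)/4) x² + ((9 D² - 1)/2) x - (23 D³ + 1)/4`.  It is isomorphic to
`Y² = X (X² + 13 D X + 128 D²)` by `X = 4 (x - D)`, `Y = 4 (2 y + x + 1)`. -/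
def twist (D : ℤ) : WeierstrassCurve ℤ :=
  ⟨1, (D - 1) / 4, 1, (9 * D ^ 2 - 1) / 2, -((23 * D ^ 3 + 1) / 4)⟩

/-- The curve given by the equation of `W` over the ring `R`. -/
abbrev base (W : WeierstrassCurve ℤ) (R : Type) [CommRing R] : WeierstrassCurve R :=
  W.map (Int.castRingHom R)

/-- The number of the affine points `(x, y)` over the ring `R`. -/
noncomputable def pts (W : WeierstrassCurve ℤ) (R : Type) [CommRing R] : ℕ :=
  Nat.card {P : R × R // (base W R).toAffine.Equation P.1 P.2}

section

variable {K : Type} [Field K] [NumberField K]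

/-- `a_v = N v + 1 - #W(k_v)`, the points over the residue field `k_v` counted with the point at
infinity. -/
noncomputable def a (W : WeierstrassCurve ℤ) (v : HeightOneSpectrum (𝓞 K)) : ℤ :=
  (Ideal.absNorm v.asIdeal : ℤ) - pts W (𝓞 K ⧸ v.asIdeal)

/-- The Euler factor of `L(W/K, s)` at `v` : `(1 - a_v N v^(-s) + N v^(1 - 2 s))⁻¹` if the
discriminant is a unit at `v`, and `(1 - a_v N v^(-s))⁻¹` otherwise. -/
noncomputable def factor (W : WeierstrassCurve ℤ) (s : ℂ) (v : HeightOneSpectrum (𝓞 K)) : ℂ :=
  (1 - (a W v : ℂ) * (Ideal.absNorm v.asIdeal : ℂ) ^ (-s) +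
    if ((W.Δ : ℤ) : 𝓞 K) ∈ v.asIdeal then 0 else (Ideal.absNorm v.asIdeal : ℂ) ^ (1 - 2 * s))⁻¹

/-- The equation is minimal at the finite place `v` of `K`: no change of variables over `K` that
keeps the coefficients integral at `v` decreases the valuation of the discriminant. -/
def MinimalAt (W : WeierstrassCurve ℤ) (v : HeightOneSpectrum (𝓞 K)) : Prop :=
  ∀ C : VariableChange K, v.valuation K (C • base W K).a₁ ≤ 1 →
    v.valuation K (C • base W K).a₂ ≤ 1 → v.valuation K (C • base W K).a₃ ≤ 1 →
    v.valuation K (C • base W K).a₄ ≤ 1 → v.valuation K (C • base W K).a₆ ≤ 1 →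
    v.valuation K (C • base W K).Δ ≤ v.valuation K (base W K).Δ

/-- `E⁰(K_v)`, the group of the points of `W` over the completion `K_v` with nonsingular reduction:
the points `(x, y)` where `x` is not integral, or one of the partial derivatives of
`y² + a₁ x y + a₃ y - x³ - a₂ x² - a₄ x - a₆` is a unit at `(x, y)`, and the point at infinity. -/
noncomputable def nonsing (W : WeierstrassCurve ℤ) (v : HeightOneSpectrum (𝓞 K)) :
    AddSubgroup (base W (v.adicCompletion K)).toAffine.Point :=
  AddSubgroup.closure {P | ∀ x y h, P = Affine.Point.some x y h →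
    1 < Valued.v x ∨ Valued.v (W.a₁ * y - (3 * x ^ 2 + 2 * W.a₂ * x + W.a₄)) = 1 ∨
      Valued.v (2 * y + W.a₁ * x + W.a₃) = 1}

/-- The Tamagawa number `c_v = [E(K_v) : E⁰(K_v)]` of a minimal equation. -/
noncomputable def c (W : WeierstrassCurve ℤ) (v : HeightOneSpectrum (𝓞 K)) : ℕ :=
  (nonsing W v).index

end

section

variable (K : Type) [Field K] [NumberField K]

/-- The product of the Tamagawa numbers. -/
noncomputable def Tam (W : WeierstrassCurve ℤ) : ℕ := ∏ᶠ v : HeightOneSpectrum (𝓞 K), c W v

/-- The 2-primary part of the Tate-Shafarevich group over `K`. -/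
noncomputable abbrev Sha2 (W : WeierstrassCurve ℤ) : AddSubgroup (Sha (base W K)) :=
  AddCommGroup.primaryComponent (Sha (base W K)) 2

/-- The torsion points over `K`. -/
def tors (W : WeierstrassCurve ℤ) : Set (base W K).toAffine.Point := {P | ∃ n : ℕ, 0 < n ∧ n • P = 0}

/-- The rank of the group of the points over `K`. -/
noncomputable def rank (W : WeierstrassCurve ℤ) : ℕ := Module.finrank ℤ (base W K).toAffine.Point

/-- `g` is a basis of the group of the points over `K` modulo torsion. -/
def IsBasis (W : WeierstrassCurve ℤ) {r : ℕ} (g : Fin r → (base W K).toAffine.Point) : Prop :=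
  ∀ P : (base W K).toAffine.Point, ∃! n : Fin r → ℤ, P - ∑ i, n i • g i ∈ tors K W

/-- `h` is the canonical height: `h(P) = lim 4^{-k} h_K(x(2^k P))`, where `h_K` is the logarithmic
height relative to `K`. -/
def IsHeight (W : WeierstrassCurve ℤ) (h : (base W K).toAffine.Point → ℝ) : Prop :=
  ∀ P : (base W K).toAffine.Point,
    Tendsto (fun k : ℕ => Height.logHeight ((2 ^ k : ℕ) • P).xRep / 4 ^ k) atTop (𝓝 (h P))

/-- The regulator, the determinant of `⟨g_i, g_j⟩ = (h(g_i + g_j) - h(g_i) - h(g_j)) / 2`. -/
noncomputable def reg (W : WeierstrassCurve ℤ) (h : (base W K).toAffine.Point → ℝ) {r : ℕ}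
    (g : Fin r → (base W K).toAffine.Point) : ℝ :=
  (Matrix.of fun i j : Fin r => (h (g i + g j) - h (g i) - h (g j)) / 2).det

end

/-- `4 x³ + b₂ x² + 2 b₄ x + b₆ = (2 y + a₁ x + a₃)²`, where `b₂ = a₁² + 4 a₂`,
`b₄ = 2 a₄ + a₁ a₃`, `b₆ = a₃² + 4 a₆`. -/
def cubic (W : WeierstrassCurve ℤ) {R : Type} [CommRing R] (x : R) : R :=
  4 * x ^ 3 + W.b₂ * x ^ 2 + 2 * W.b₄ * x + W.b₆

/-- `∫_{W(ℝ)} |ω|` with `ω = dx / (2 y + a₁ x + a₃)`, as an integral over `x`: two real points lie
over each `x` with `cubic x > 0`. -/
noncomputable def realPeriod (W : WeierstrassCurve ℤ) : ℝ :=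
  2 * ∫ x in {x : ℝ | 0 < cubic W x}, 1 / √(cubic W x)

/-- `2 ∫_{W(ℂ)} |ω ∧ ω̄|`, where `|ω ∧ ω̄| = du dv` in a local parameter `z = u + i v` with
`dz = ω`, as an integral over `x`: two points lie over a general `x`, and `|ω ∧ ω̄|` is the area
element of the plane of `x` divided by `|cubic x|`. -/
noncomputable def complexPeriod (W : WeierstrassCurve ℤ) : ℝ := 2 * (2 * ∫ x : ℂ, 1 / ‖cubic W x‖)

/-- The global period of an equation that is minimal at all finite places. -/
noncomputable def Omega (K : Type) [Field K] [NumberField K] (W : WeierstrassCurve ℤ) : ℝ :=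
  realPeriod W ^ nrRealPlaces K * complexPeriod W ^ nrComplexPlaces K

/-- The `L`-function of `W` over `K` is an entire function `L`, its order at `s = 1` is `n`, and `x` is
the analytic order of the Tate-Shafarevich group, that is
`L*(1) √|Δ_K| (#E(K)_tors)² / (Reg Ω Tam)`, where `L*(1)` is the leading coefficient at `1`: the value
of `#Ш` that is predicted by the conjecture.  (The three numbers in the denominator and the number of
the torsion points are positive.) -/
def IsAnalyticSha (K : Type) [Field K] [NumberField K] (W : WeierstrassCurve ℤ) (n : ℕ) (x : ℂ) :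
    Prop :=
  ∃ (L : ℂ → ℂ) (l : ℂ) (h : (base W K).toAffine.Point → ℝ) (r : ℕ)
    (g : Fin r → (base W K).toAffine.Point), Differentiable ℂ L ∧
    (∀ s : ℂ, 3 / 2 < s.re → HasProd (factor (K := K) W s) (L s)) ∧
    analyticOrderAt L 1 = n ∧ Tendsto (fun s => L s / (s - 1) ^ n) (𝓝[≠] 1) (𝓝 l) ∧
    IsHeight K W h ∧ IsBasis K W g ∧ 0 < reg K W h g ∧ 0 < Omega K W ∧ 0 < Tam K W ∧
    0 < Nat.card (tors K W) ∧
    x = l * ((√|(discr K : ℝ)| : ℝ) : ℂ) * (Nat.card (tors K W) : ℂ) ^ 2 /
      (((reg K W h g * Omega K W * Tam K W : ℝ)) : ℂ)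

/-- The 2-part of the conjecture of Birch and Swinnerton-Dyer for `W` over `K`: the `L`-function is
entire, its order at `s = 1` is the rank, the 2-primary part of the Tate-Shafarevich group is finite,
and the analytic order of the Tate-Shafarevich group is a rational number with the same 2-adic
valuation as the order of that 2-primary part. -/
def TwoPart (K : Type) [Field K] [NumberField K] (W : WeierstrassCurve ℤ) : Prop :=
  ∃ x : ℚ, x ≠ 0 ∧ IsAnalyticSha K W (rank K W) x ∧ Finite (Sha2 K W) ∧
    padicValRat 2 x = padicValNat 2 (Nat.card (Sha2 K W))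

/-- On `K` the automorphism `σ` is a power of the Frobenius automorphism at `p`, i.e. of the
automorphism `φ` of the cyclotomic field `C` that raises the `q`-th roots of unity to the power `p`. -/
def FrobPow {C : Type} [Field C] [NumberField C] (q p : ℕ) (K : IntermediateField ℚ C)
    (σ : C ≃ₐ[ℚ] C) : Prop :=
  ∃ φ : C ≃ₐ[ℚ] C, (∀ ζ : C, ζ ^ q = 1 → φ ζ = ζ ^ p) ∧ ∃ k : ℕ, ∀ x ∈ K, σ x = (φ ^ k) x

/-- all the parts -/
theorem parts : Pool.Agent.Y682.XF.Parts where
  hecke := Pool.Agent.Y688.XD.s_hecke
  apev := Pool.Agent.Y461.XD.s_apev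
  nz := Pool.Agent.Y758.XD.s_nz
  lkd := Pool.Agent.Y954.XF.s_lkd Pool.Agent.Y109.XF.t_LF
  trd := Pool.Agent.Y682.XF.s_trd
  kd := Pool.Agent.Y812.XF.t_KD
  prim := Pool.Agent.Y44.XF.s_prim
  mind := Pool.Agent.Y44.XF.s_mind
  tg := Pool.Agent.Y641.XF.s_tg
  t7 := Pool.Agent.Y641.XF.s_t7
  t2 := Pool.Agent.Y641.XF.s_t2
  ti := Pool.Agent.Y641.XF.s_ti
  ts := Pool.Agent.Y641.XF.s_ts
  tamd := Pool.Agent.Y813.XF.s_tamd
  tord := Pool.Agent.Y665.XF.t_TORD
  perd := Pool.Agent.Y614.XF.perd
  ht := Pool.Agent.Y812.XF.t_HT
  ch := Pool.Agent.Y532.XF.t_ch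
  reg := Pool.Agent.Y686.XF.t_REG
  qval := Pool.Agent.Y514.XF.s_qval
  inz := Pool.Agent.Y31.XF.s_inz

/-- **Main theorem.** Let `q` be a power of a prime, prime to `14`, and let `F ⊆ K` be subfields of the
`q`-th cyclotomic field `C`, `K` of odd degree.  Suppose that `q` is a power of three (then `F` and `K` are
layers of the cyclotomic `ℤ₃`-extension of `ℚ`), or that `2` and `7` are inert in `K` and the narrow class
number of `K` is odd.  Let `D = 1` modulo `4` be squarefree, positive or negative, such that the prime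
divisors `p` of `D` do not divide `14 q`, and such that on `K` all the automorphisms which are trivial on
`F` are powers of the Frobenius automorphism at `p`, or `q` is a power of three and `p² - 1` is not
divisible by `9 [F:ℚ]`.  Let `E_D` be the twist by `D` of `X_0(14)`.

(1) The equation is minimal at all the finite places, and almost all the Tamagawa numbers are `1`.
(2) `E_D(K)` and `E_D(F)` have the same rank, and the 2-primary parts of the Tate-Shafarevich groups
over `K` and over `F` are isomorphic.
(3) The `L`-functions over `F` and `K` are entire with the same order `n` at `s = 1`, and the analytic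
orders `x₀`, `x` of the Tate-Shafarevich groups satisfy `x = ρ x₀` with a rational number `ρ ≠ 0` of
2-adic valuation zero.
(4) The 2-part of the conjecture holds over `K` if and only if it holds over `F`. -/
theorem result (q : ℕ) [NeZero q] (hq : IsPrimePow q) (hco : q.Coprime 14)
    (C : Type) [Field C] [NumberField C] [IsCyclotomicExtension {q} ℚ C]
    (F K : IntermediateField ℚ C) (hFK : F ≤ K) (hodd : Odd (Module.finrank ℚ K))
    (hcl : 3 ∣ q ∨ ((Ideal.span {((2 : ℕ) : 𝓞 K)}).IsPrime ∧
      (Ideal.span {((7 : ℕ) : 𝓞 K)}).IsPrime ∧ Odd (Nat.card (NCl K))))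
    (D : ℤ) (hD : Squarefree D) (hD4 : D % 4 = 1)
    (hDp : ∀ p : ℕ, p.Prime → (p : ℤ) ∣ D → ¬ p ∣ 14 * q ∧
      ((∀ σ : C ≃ₐ[ℚ] C, (∀ x ∈ F, σ x = x) → FrobPow q p K σ) ∨
        (3 ∣ q ∧ ¬ 9 * Module.finrank ℚ F ∣ p ^ 2 - 1))) :
    (∀ v : HeightOneSpectrum (𝓞 K), MinimalAt (twist D) v) ∧
    (∀ v : HeightOneSpectrum (𝓞 F), MinimalAt (twist D) v) ∧
    {v : HeightOneSpectrum (𝓞 K) | c (twist D) v ≠ 1}.Finite ∧
    {v : HeightOneSpectrum (𝓞 F) | c (twist D) v ≠ 1}.Finite ∧
    rank K (twist D) = rank F (twist D) ∧ Nonempty (Sha2 K (twist D) ≃+ Sha2 F (twist D)) ∧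
    (∃ (n : ℕ) (x₀ x : ℂ) (ρ : ℚ), IsAnalyticSha F (twist D) n x₀ ∧
      IsAnalyticSha K (twist D) n x ∧ x₀ ≠ 0 ∧ x = ρ * x₀ ∧ ρ ≠ 0 ∧ padicValRat 2 ρ = 0) ∧
    (TwoPart K (twist D) ↔ TwoPart F (twist D)) :=
  Pool.Agent.Helper891_XS.final_rel parts Pool.Agent.Y697.XF.t_REGU q hq hco C F K hFK hodd hcl D
    hD hD4 hDp

end Pool.Agent.Results.MP_f50388_nt.TwistsInTowers
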